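import Mathlib

namespace Pool.Agent.Results.MP_f664e7_co.Counter
open List

/-- a linear permutation: a word of distinct positive integers. -/
def IsPerm (l : List ℕ) : Prop := l.Nodup ∧ ∀ x ∈ l, 0 < x

/-- standardization: each letter is replaced by its rank. -/
def std (l : List ℕ) : List ℕ := l.map fun x => (l.toFinset.filter (· ≤ x)).card

/-- a cyclic permutation statistic; cyclic permutations are words up to rotation. -/
def IsStat {β : Type} (cst : Cycle ℕ → β) : Prop :=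
  ∀ π σ : List ℕ, IsPerm π → IsPerm σ → std π = std σ → cst π = cst σ

/-- the set of cyclic shuffles. -/
def Sh (π σ : List ℕ) : Set (Cycle ℕ) :=
  {c | ∃ τ : List ℕ, c = τ ∧ IsPerm τ ∧ τ.length = π.length + σ.length ∧
    (∃ p, p ~r π ∧ p <+ τ) ∧ ∃ s, s ~r σ ∧ s <+ τ}

/-- cyclic shuffle-compatibility: each value is taken equally often on the two shuffle sets. -/
def Compatible {β : Type} (cst : Cycle ℕ → β) : Prop :=
  ∀ π σ π' σ' : List ℕ, IsPerm π → IsPerm σ → IsPerm π' → IsPerm σ' →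
    π.Disjoint σ → π'.Disjoint σ' → cst π = cst π' → cst σ = cst σ' →
    π.length = π'.length → σ.length = σ'.length →
    ∀ b, {c ∈ Sh π σ | cst c = b}.ncard = {c ∈ Sh π' σ' | cst c = b}.ncard

/-- cyclic descent set of a word (positions counted from 0). -/
def cDesL (l : List ℕ) : Finset ℕ :=
  (Finset.range l.length).filter fun i => l.getD ((i + 1) % l.length) 0 < l.getD i 0

/-- the multiset of cyclic descent sets of the rotations. -/
def cDes (l : List ℕ) : Multiset (Finset ℕ) := (l.cyclicPermutations.map cDesL : List _)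

def IsDescentStat {β : Type} (cst : Cycle ℕ → β) : Prop :=
  ∀ π σ : List ℕ, IsPerm π → IsPerm σ → π.length = σ.length → cDes π = cDes σ → cst π = cst σ

def A : List (List ℕ) := [[1,2,3,4,5], [1,2,5,3,4], [1,2,5,4,3], [1,3,2,4,5], [1,3,5,2,4],
  [1,3,5,4,2], [1,4,2,3,5], [1,4,3,2,5], [1,4,5,2,3], [1,4,5,3,2], [1,5,2,4,3], [1,5,3,4,2]]

def cstL (l : List ℕ) : Bool := (std l).cyclicPermutations.any (· ∈ A)

def cst : Cycle ℕ → Bool := Quotient.lift cstL fun a b (h : a ~r b) => by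
  refine (IsRotated.cyclicPermutations ?_).perm.any_eq
  unfold std
  rw [toFinset_eq_of_perm _ _ h.perm]
  exact h.map _

lemma cst_coe (l : List ℕ) : cst l = cstL l := rfl

lemma len5 {l : List ℕ} (h : l.length ≠ 5) : cstL l = false := by
  rw [cstL, any_eq_false]
  intro x hx hA
  have h1 := (mem_cyclicPermutations_iff.mp hx).perm.length_eq
  have h2 : ∀ x ∈ A, x.length = 5 := by decide
  rw [h2 x (by simpa using hA), std, length_map] at h1
  exact h h1.symm

lemma perm_of {π σ τ : List ℕ} (h : (π ++ σ).Nodup) (hl : τ.length = π.length + σ.length)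
    {p s} (p1 : p ~r π) (p2 : p <+ τ) (s1 : s ~r σ) (s2 : s <+ τ) : τ ~ π ++ σ := by
  refine ((subperm_of_subset h ?_).perm_of_length_le (by simp [hl])).symm
  intro x hx
  rcases mem_append.mp hx with hx | hx
  exacts [p2.subset (p1.mem_iff.mpr hx), s2.subset (s1.mem_iff.mpr hx)]

lemma fwd {π σ : List ℕ} (f : ℕ → ℕ) (h : IsPerm (π ++ σ)) (h' : IsPerm ((π ++ σ).map f))
    {c} (hc : c ∈ Sh π σ) : c.map f ∈ Sh (π.map f) (σ.map f) ∧ ∃ τ : List ℕ, c = τ ∧ τ ~ π ++ σ := by
  obtain ⟨τ, rfl, -, h2, ⟨p, p1, p2⟩, s, s1, s2⟩ := hc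
  have k := perm_of h.1 h2 p1 p2 s1 s2
  exact ⟨⟨τ.map f, rfl, ⟨(k.map f).nodup_iff.mpr h'.1, fun x hx => h'.2 x ((k.map f).subset hx)⟩,
    by simp [h2], ⟨_, p1.map f, p2.map f⟩, _, s1.map f, s2.map f⟩, τ, rfl, k⟩

lemma relabel {π σ : List ℕ} (f : ℕ → ℕ) (h : IsPerm (π ++ σ)) (h' : IsPerm ((π ++ σ).map f))
    (hQ : ∀ τ, τ ~ π ++ σ → cstL (τ.map f) = cstL τ) (b : Bool) :
    {c ∈ Sh π σ | cst c = b}.ncard = {c ∈ Sh (π.map f) (σ.map f) | cst c = b}.ncard := by
  have inj : Set.InjOn f {x | x ∈ π ++ σ} := fun x hx y hy => inj_on_of_nodup_map h'.1 hx hy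
  let g := Function.invFunOn f {x | x ∈ π ++ σ}
  have gf : ∀ l : List ℕ, l ⊆ π ++ σ → (l.map f).map g = l := fun l hl => by
    rw [map_map]
    exact (map_congr_left fun x hx => inj.leftInvOn_invFunOn (hl hx)).trans (map_id l)
  rw [← Set.InjOn.ncard_image (f := Cycle.map f)]
  · congr 1
    ext c
    constructor
    · rintro ⟨d, ⟨d1, d2⟩, rfl⟩
      obtain ⟨k, τ, rfl, t⟩ := fwd f h h' d1
      exact ⟨k, (hQ τ t).trans d2⟩
    · rintro ⟨c1, c2⟩
      rw [map_append] at h'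
      obtain ⟨k, τ, rfl, t⟩ := fwd g h' (by rw [← map_append, gf _ (Subset.refl _)]; exact h) c1
      rw [gf _ (by simp), gf _ (by simp)] at k
      have e : (τ.map g).map f = τ := by
        rw [map_map]
        refine (map_congr_left fun x hx => ?_).trans (map_id τ)
        have := t.subset hx
        rw [← map_append, mem_map] at this
        exact Function.invFunOn_eq this
      have t' := t.map g
      rw [← map_append, gf _ (Subset.refl _)] at t'
      exact ⟨_, ⟨k, (hQ _ t').symm.trans (by rw [e]; exact c2)⟩, congrArg _ e⟩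
  · rintro c ⟨c1, -⟩ d ⟨d1, -⟩ e
    obtain ⟨-, τ, rfl, t⟩ := fwd f h h' c1
    obtain ⟨-, υ, rfl, u⟩ := fwd f h h' d1
    have := congrArg (Cycle.map g) e
    simpa only [Cycle.map_coe, gf _ t.subset, gf _ u.subset] using this

lemma std_map {l : List ℕ} {f : ℕ → ℕ} (h : ∀ x ∈ l, ∀ y ∈ l, f x ≤ f y ↔ x ≤ y) :
    std (l.map f) = std l := by
  rw [std, map_map]
  refine map_congr_left fun x hx => (Finset.card_bij (fun y _ => f y) ?_ ?_ ?_).symm
  · intro y hy
    simp only [Finset.mem_filter, mem_toFinset] at hy ⊢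
    exact ⟨mem_map_of_mem hy.1, (h y hy.1 x hx).mpr hy.2⟩
  · intro y hy z hz e
    simp only [Finset.mem_filter, mem_toFinset] at hy hz
    exact le_antisymm ((h y hy.1 z hz.1).mp e.le) ((h z hz.1 y hy.1).mp e.ge)
  · intro z hz
    simp only [Finset.mem_filter, mem_toFinset, mem_map] at hz ⊢
    obtain ⟨⟨y, hy, rfl⟩, e⟩ := hz
    exact ⟨y, ⟨hy, (h y hy x hx).mp e⟩, rfl⟩

def B : List (List ℕ) := [[1,2,3,5,4], [1,2,4,3,5], [1,2,4,5,3], [1,3,2,5,4], [1,3,4,2,5],
  [1,3,4,5,2], [1,4,2,5,3], [1,4,3,5,2], [1,5,2,3,4], [1,5,3,2,4], [1,5,4,2,3], [1,5,4,3,2]]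

def cnt (p s : List ℕ) (b : Bool) : List (List ℕ) := (cond b A B).filter fun r =>
  r.filter (p.any ∘ Nat.beq) ∈ p.cyclicPermutations && r.filter (s.any ∘ Nat.beq) ∈ s.cyclicPermutations

lemma flt {r t a p : List ℕ} (h : r.Nodup) (e : t ~r r) (a1 : a ~r p) (a2 : a <+ t) :
    r.filter (p.any ∘ Nat.beq) ~r p := by
  have k : t.filter (p.any ∘ Nat.beq) ~r r.filter (p.any ∘ Nat.beq) := by
    obtain ⟨n, hn, rfl⟩ := isRotated_iff_mod.mp e
    rw [rotate_eq_drop_append_take hn, filter_append]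
    nth_rw 1 [← take_append_drop n t, filter_append]
    exact isRotated_append
  have k2 := a2.filter (p.any ∘ Nat.beq)
  rw [filter_eq_self.mpr (fun x hx => by simpa using a1.mem_iff.mp hx)] at k2
  rw [← k2.eq_of_length_le] at k
  · exact k.symm.trans a1
  · rw [a1.perm.length_eq]
    exact (subperm_of_subset ((e.perm.nodup_iff.mpr h).filter _) fun x hx => by
      simpa using (mem_filter.mp hx).2).length_le

def F (m : ℕ) (x y b : Bool) : ℕ :=
  if m = 0 ∨ m = 5 then (if (x || y) = b then 1 else 0) else if m = 1 ∨ m = 4 then 2 else 6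

lemma c0 : ∀ u ∈ permutations' [1,2,3,4,5], ∃ r ∈ cond (cstL u) A B, r ∈ u.cyclicPermutations := by
  decide +kernel

lemma c1 : ∀ u ∈ permutations' [1,2,3,4,5], ∀ m < 6, ∀ b,
    (cnt (u.take m) (u.drop m) b).length = F m (cstL (u.take m)) (cstL (u.drop m)) b := by
  decide +kernel

lemma c2 : ∀ b, (cond b A B).Pairwise (fun a b => ¬ a ~r b) ∧
    ∀ r ∈ cond b A B, r.Nodup ∧ r.length = 5 ∧ cstL r = b ∧ ∀ x ∈ r, 0 < x := by decide +kernel

lemma five {p s : List ℕ} (h : p ++ s ~ [1,2,3,4,5]) (b : Bool) :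
    {c ∈ Sh p s | cst c = b}.ncard = F p.length (cstL p) (cstL s) b := by
  have hl : p.length + s.length = 5 := by simpa using h.length_eq
  have := c1 _ (mem_permutations'.mpr h) p.length (by omega) b
  rw [take_left, drop_left] at this
  have nd : ((cnt p s b).map ((↑) : List ℕ → Cycle ℕ)).Nodup :=
    pairwise_map.mpr (((c2 b).1.filter _).imp fun h e => h (Cycle.coe_eq_coe.mp e))
  rw [← this, ← length_map ((↑) : List ℕ → Cycle ℕ), ← toFinset_card_of_nodup nd,
    ← Set.ncard_coe_finset]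
  congr 1
  ext c
  simp only [cnt, coe_toFinset, mem_map, mem_filter, Set.mem_ofPred_eq, Bool.and_eq_true,
    decide_eq_true_eq, mem_cyclicPermutations_iff]
  constructor
  · rintro ⟨⟨τ, rfl, -, h2, ⟨a, a1, a2⟩, d, d1, d2⟩, rfl⟩
    obtain ⟨r, r1, r2⟩ := c0 _ (mem_permutations'.mpr
      ((perm_of (h.nodup_iff.mpr (by decide)) h2 a1 a2 d1 d2).trans h))
    rw [mem_cyclicPermutations_iff] at r2
    have k := ((c2 _).2 r r1).1
    exact ⟨r, ⟨r1, flt k r2.symm a1 a2, flt k r2.symm d1 d2⟩, Cycle.coe_eq_coe.mpr r2⟩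
  · rintro ⟨r, ⟨r1, e1, e2⟩, rfl⟩
    obtain ⟨k1, k2, k3, k4⟩ := (c2 b).2 r r1
    exact ⟨⟨r, rfl, ⟨k1, k4⟩, by rw [k2, hl], ⟨_, e1, filter_sublist⟩, _, e2, filter_sublist⟩, k3⟩

lemma five' {π σ : List ℕ} (h : IsPerm (π ++ σ)) (hl : π.length + σ.length = 5) (b : Bool) :
    {c ∈ Sh π σ | cst c = b}.ncard = F π.length (cstL π) (cstL σ) b := by
  let f : ℕ → ℕ := fun x => ((π ++ σ).toFinset.filter (· ≤ x)).card
  have mono : ∀ x ∈ π ++ σ, ∀ y ∈ π ++ σ, f x ≤ f y ↔ x ≤ y := by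
    intro x hx y _
    refine ⟨fun k => ?_, fun k => Finset.card_le_card fun z => by simp only [Finset.mem_filter]; grind⟩
    by_contra n
    refine absurd k (not_le.mpr (Finset.card_lt_card ⟨fun z => ?_, fun e => ?_⟩))
    · simp only [Finset.mem_filter]; grind
    · exact n (Finset.mem_filter.mp (e (Finset.mem_filter.mpr ⟨mem_toFinset.mpr hx, le_rfl⟩))).2
  have sub : ∀ l : List ℕ, l ⊆ π ++ σ → cstL (l.map f) = cstL l := fun l hl => by
    rw [cstL, std_map fun x hx y hy => mono x (hl hx) y (hl hy), cstL]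
  have nd : ((π ++ σ).map f).Nodup := h.1.map_on fun x hx y hy e =>
    le_antisymm ((mono x hx y hy).mp e.le) ((mono y hy x hx).mp e.ge)
  have rg : ∀ x ∈ (π ++ σ).map f, 0 < x ∧ x ≤ 5 := by
    intro x hx
    obtain ⟨y, hy, rfl⟩ := mem_map.mp hx
    refine ⟨Finset.card_pos.mpr ⟨y, Finset.mem_filter.mpr ⟨mem_toFinset.mpr hy, le_rfl⟩⟩, ?_⟩
    exact (Finset.card_filter_le _ _).trans ((toFinset_card_le _).trans (by simp [hl]))
  rw [relabel f h ⟨nd, fun x hx => (rg x hx).1⟩ (fun τ t => sub τ t.subset), five, length_map,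
    sub _ (by simp), sub _ (by simp)]
  rw [← map_append]
  refine (subperm_of_subset nd fun x hx => ?_).perm_of_length_le (by simp [hl])
  have := rg x hx
  simp only [mem_cons, not_mem_nil]
  omega

theorem result : ∃ cst : Cycle ℕ → Bool, IsStat cst ∧ Compatible cst ∧ ¬ IsDescentStat cst := by
  refine ⟨cst, fun π σ _ _ e => by rw [cst_coe, cst_coe, cstL, cstL, e], ?_, fun h => ?_⟩
  · intro π σ π' σ' h1 h2 h3 h4 d d' e1 e2 l1 l2 b
    have ap : ∀ {π σ : List ℕ}, IsPerm π → IsPerm σ → π.Disjoint σ → IsPerm (π ++ σ) :=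
      fun h1 h2 d => ⟨h1.1.append h2.1 d, fun x hx => (mem_append.mp hx).elim (h1.2 x) (h2.2 x)⟩
    have a := ap h1 h2 d
    have a' := ap h3 h4 d'
    by_cases c : π.length + σ.length = 5
    · rw [five' a c, five' a' (by omega), ← cst_coe, ← cst_coe, e1, e2, l1]
      rfl
    · let f : ℕ → ℕ := fun x => (π' ++ σ').getD ((π ++ σ).idxOf x) 0
      have e : (π ++ σ).map f = π' ++ σ' := by
        refine ext_getElem (by simp [l1, l2]) fun i i1 i2 => ?_
        rw [getElem_map]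
        simp only [f]
        rw [a.1.idxOf_getElem, getD_eq_getElem _ _ i2]
      rw [relabel f a (e ▸ a') (fun τ t => by
        have := t.length_eq
        rw [len5, len5] <;> simp_all)]
      rw [map_append] at e
      obtain ⟨e3, e4⟩ := append_inj e (by simp [l1])
      rw [e3, e4]
  · exact absurd (h [1,2,4,3,5] [1,2,5,3,4] ⟨by decide, by decide⟩ ⟨by decide, by decide⟩ rfl
      (by decide +kernel)) (by decide +kernel)

end Pool.Agent.Results.MP_f664e7_co.Counter
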